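import Mathlib
import Pool.Agent.H48.DS

set_option autoImplicit false

namespace Pool.Agent.Results.MP_4e48d5_nt.Proof

open Finset MeasureTheory Filter Topology

/- van der Corput sequence in base 2; the binary digits of n of index at least n vanish. -/
noncomputable def vdc (n : ℕ) : ℝ :=
  ∑ j ∈ range n, (if n.testBit j then (1 : ℝ) else 0) / 2 ^ (j + 1)

open Classical in
/- Number of n < N with z_n in the box [a1,b1) x [a2,b2). -/
noncomputable def cnt (α : ℝ) (N : ℕ) (a1 b1 a2 b2 : ℝ) : ℕ :=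
  ((range N).filter fun n => vdc n ∈ Set.Ico a1 b1 ∧ Int.fract (n * α) ∈ Set.Ico a2 b2).card

/- The discrepancy D_N. -/
noncomputable def disc (α : ℝ) (N : ℕ) : ℝ :=
  sSup {d | ∃ a1 b1 a2 b2 : ℝ, 0 ≤ a1 ∧ a1 ≤ b1 ∧ b1 ≤ 1 ∧ 0 ≤ a2 ∧ a2 ≤ b2 ∧ b2 ≤ 1 ∧
    d = |(cnt α N a1 b1 a2 b2 : ℝ) / N - (b1 - a1) * (b2 - a2)|}

lemma le_disc (α : ℝ) (N : ℕ) (a1 b1 a2 b2 : ℝ) (h1 : 0 ≤ a1) (h2 : a1 ≤ b1) (h3 : b1 ≤ 1)
    (h4 : 0 ≤ a2) (h5 : a2 ≤ b2) (h6 : b2 ≤ 1) :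
    |(cnt α N a1 b1 a2 b2 : ℝ) / N - (b1 - a1) * (b2 - a2)| ≤ disc α N := by
  refine le_csSup ⟨1, ?_⟩ ⟨a1, b1, a2, b2, h1, h2, h3, h4, h5, h6, rfl⟩
  rintro _ ⟨a1, b1, a2, b2, h1, h2, h3, h4, h5, h6, rfl⟩
  have k1 : (cnt α N a1 b1 a2 b2 : ℝ) / N ≤ 1 := by
    refine div_le_one_of_le₀ ?_ (by positivity)
    exact_mod_cast (card_filter_le _ _).trans (card_range N).le
  have k2 : (0 : ℝ) ≤ (cnt α N a1 b1 a2 b2 : ℝ) / N := by positivity
  have k3 : (b1 - a1) * (b2 - a2) ≤ 1 := mul_le_one₀ (by linarith) (by linarith) (by linarith)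
  have k4 : 0 ≤ (b1 - a1) * (b2 - a2) := mul_nonneg (by linarith) (by linarith)
  rw [abs_le]; constructor <;> linarith

lemma dvd_of_vdc (n j : ℕ) (h : vdc n < 1 / 2 ^ j) : 2 ^ j ∣ n := by
  rw [Nat.dvd_iff_mod_eq_zero]
  refine Nat.zero_of_testBit_eq_false fun i => ?_
  rw [Nat.testBit_mod_two_pow]
  by_contra hc
  simp only [Bool.and_eq_false_imp, decide_eq_true_eq, not_forall, Bool.not_eq_false] at hc
  obtain ⟨hi, hb⟩ := hc
  have h1 : i ∈ range n := mem_range.2 (Nat.lt_two_pow_self.trans_le (Nat.ge_two_pow_of_testBit hb))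
  have h2 := single_le_sum (f := fun j => (if n.testBit j then (1 : ℝ) else 0) / 2 ^ (j + 1))
    (fun j _ => by split_ifs <;> positivity) h1
  simp only [hb, if_true] at h2
  have h3 : (1 : ℝ) / 2 ^ j ≤ 1 / 2 ^ (i + 1) := by
    gcongr
    · norm_num
    · omega
  unfold vdc at h
  linarith

lemma empty (α : ℝ) (j q N : ℕ) (hq : 0 < q) (z : ℤ) (e : ℝ)
    (hα : (2 ^ j * q : ℕ) * α = z + (2 ^ j * q : ℕ) * e) (he : q * N * |e| < 1 / 4) :
    1 / (2 * ((2 ^ j * q : ℕ) : ℝ)) ≤ disc α N := by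
  have hq' : (1 : ℝ) ≤ q := by exact_mod_cast hq
  have h := le_disc α N 0 (1 / 2 ^ j) (1 / (4 * q)) (3 / (4 * q)) le_rfl (by positivity)
    (by rw [div_le_one (by positivity)]; exact one_le_pow₀ (by norm_num)) (by positivity)
    (by gcongr; norm_num) (by rw [div_le_one (by positivity)]; linarith)
  have h0 : cnt α N 0 (1 / 2 ^ j) (1 / (4 * q)) (3 / (4 * q)) = 0 := by
    unfold cnt
    rw [card_eq_zero, filter_eq_empty_iff]
    rintro n hn ⟨⟨_, k1⟩, k2, k3⟩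
    obtain ⟨m, rfl⟩ := dvd_of_vdc n j k1
    rw [div_le_iff₀ (by positivity)] at k2
    rw [lt_div_iff₀ (by positivity)] at k3
    have k4 : (q : ℝ) * ((2 ^ j * m : ℕ) : ℝ) * |e| ≤ q * N * |e| := by
      gcongr; exact (mem_range.1 hn).le
    obtain ⟨n, hn'⟩ : ∃ n : ℝ, n = ((2 ^ j * m : ℕ) : ℝ) := ⟨_, rfl⟩
    have hn0 : 0 ≤ n := by rw [hn']; positivity
    have k5 : q * Int.fract (n * α) = ((m * z - q * ⌊n * α⌋ : ℤ) : ℝ) + q * n * e := by
      rw [Int.fract, hn']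
      push_cast at hα ⊢
      linear_combination (m : ℝ) * hα
    rw [← hn'] at k2 k3 k4
    have k6 : |q * n * e| < 1 / 4 := by
      rw [abs_mul, abs_of_nonneg (by positivity : (0 : ℝ) ≤ q * n)]; linarith
    obtain ⟨w, hw⟩ : ∃ w, w = m * z - q * ⌊n * α⌋ := ⟨_, rfl⟩
    rw [← hw] at k5
    obtain ⟨k7, k8⟩ := abs_lt.1 k6
    have a1 : (0 : ℤ) < w := by
      have : (0 : ℝ) < w := by linarith
      exact_mod_cast this
    have a2 : w < 1 := by
      have : (w : ℝ) < 1 := by linarith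
      exact_mod_cast this
    omega
  rw [h0] at h
  refine le_trans (le_of_eq ?_) ((neg_le_abs _).trans h)
  push_cast
  field_simp
  ring

noncomputable def del (n : ℕ) : ℝ :=
  if 1 ≤ padicValNat 2 n ∧ n / 2 ^ padicValNat 2 n < 2 * 4 ^ padicValNat 2 n then
    1 / (4 * (n / 2 ^ padicValNat 2 n : ℕ) * n * (padicValNat 2 n : ℝ) ^ 2) else 0

lemma val (j r : ℕ) : padicValNat 2 (2 ^ j * (2 * r + 1)) = j := by
  rw [padicValNat.mul (by positivity) (by omega), padicValNat.prime_pow,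
    padicValNat.eq_zero_of_not_dvd (by omega), add_zero]

lemma del_eq (j r : ℕ) (hj : 1 ≤ j) (hr : r < 4 ^ j) : del (2 ^ j * (2 * r + 1)) =
    1 / (4 * (2 * r + 1 : ℕ) * (2 ^ j * (2 * r + 1) : ℕ) * (j : ℝ) ^ 2) := by
  unfold del
  rw [val, Nat.mul_div_cancel_left _ (by positivity), if_pos ⟨hj, by omega⟩]

lemma del_spec (n : ℕ) (h : del n ≠ 0) : ∃ j q : ℕ, 1 ≤ j ∧ 0 < q ∧ q < 2 * 4 ^ j ∧ n = 2 ^ j * q ∧
    del n = 1 / (4 * q * n * (j : ℝ) ^ 2) := by
  unfold del at h ⊢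
  split_ifs at h ⊢ with h1
  · refine ⟨_, _, h1.1, ?_, h1.2, (Nat.mul_div_cancel' pow_padicValNat_dvd).symm, rfl⟩
    rcases Nat.eq_zero_or_pos (n / 2 ^ padicValNat 2 n) with h0 | h0
    · rw [h0] at h; simp at h
    · exact h0
  · exact absurd rfl h

lemma del_nonneg (n : ℕ) : 0 ≤ del n := by unfold del; split_ifs <;> positivity

lemma del_le (n : ℕ) : del n ≤ 1 / (n : ℝ) := by
  by_cases h : del n = 0
  · rw [h]; positivity
  obtain ⟨j, q, h1, h2, _, h4, h5⟩ := del_spec n h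
  have a1 : (1 : ℝ) ≤ j := by exact_mod_cast h1
  have a2 : (1 : ℝ) ≤ q := by exact_mod_cast h2
  have a3 : (0 : ℝ) < n := by rw [h4]; positivity
  rw [h5]
  gcongr
  calc (n : ℝ) = 1 * 1 * n * 1 ^ 2 := by ring
    _ ≤ _ := by gcongr; norm_num

lemma blocks (M0 : ℕ) : ∃ F : Finset ℕ, (∀ n ∈ F, M0 ≤ n) ∧
    ∑ n ∈ F, n * del n ≤ 1 ∧ 1 / 256 ≤ ∑ n ∈ F, n.totient * del n := by
  obtain ⟨M, hM⟩ : ∃ M, M = M0 + 1 := ⟨_, rfl⟩
  have hM1 : (1 : ℝ) ≤ M := by exact_mod_cast (by omega : 1 ≤ M)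
  have hinj : Set.InjOn (fun x : ℕ × ℕ => 2 ^ x.1 * (2 * x.2 + 1))
      (Ico M (2 * M) ×ˢ range (4 ^ M) : Finset (ℕ × ℕ)) := by
    intro x _ y _ h
    have h1 := congrArg (padicValNat 2) h
    simp only [val] at h1
    simp only [h1] at h
    have := Nat.eq_of_mul_eq_mul_left (by positivity) h
    exact Prod.ext h1 (by omega)
  have hd : ∀ j ∈ Ico M (2 * M), ∀ r ∈ range (4 ^ M), del (2 ^ j * (2 * r + 1)) =
      1 / (4 * (2 * r + 1 : ℕ) * (2 ^ j * (2 * r + 1) : ℕ) * (j : ℝ) ^ 2) := fun j hj r hr =>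
    del_eq j r (by have := (mem_Ico.1 hj).1; omega)
      ((mem_range.1 hr).trans_le (Nat.pow_le_pow_right (by norm_num) (mem_Ico.1 hj).1))
  refine ⟨(Ico M (2 * M) ×ˢ range (4 ^ M)).image fun x => 2 ^ x.1 * (2 * x.2 + 1), ?_, ?_, ?_⟩
  · intro n hn
    obtain ⟨x, hx, rfl⟩ := mem_image.1 hn
    have h1 := (mem_Ico.1 (mem_product.1 hx).1).1
    have h2 : x.1 < 2 ^ x.1 := Nat.lt_two_pow_self
    nlinarith [Nat.zero_le (2 ^ x.1 * x.2)]
  · rw [sum_image hinj, sum_product]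
    have hH : ∑ r ∈ range (4 ^ M), ((r + 1 : ℕ) : ℝ)⁻¹ ≤ 3 * M := by
      have h1 := harmonic_le_one_add_log (4 ^ M)
      rw [harmonic] at h1
      push_cast at h1 ⊢
      rw [Real.log_pow] at h1
      have h2 : Real.log 4 ≤ 2 := by
        rw [show (4 : ℝ) = 2 ^ 2 by norm_num, Real.log_pow]
        have := Real.log_two_lt_d9
        push_cast; linarith
      nlinarith
    refine (sum_le_card_nsmul _ _ (3 * M / (4 * (M : ℝ) ^ 2)) fun j hj => ?_).trans ?_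
    · refine le_trans (sum_le_sum fun r hr => ?_) ((sum_div _ _ _).symm.le.trans
        (div_le_div_of_nonneg_right hH (by positivity)))
      rw [hd j hj r hr]
      have a1 : (M : ℝ) ≤ j := by exact_mod_cast (mem_Ico.1 hj).1
      have a2 : ((r + 1 : ℕ) : ℝ) ≤ (2 * r + 1 : ℕ) := by exact_mod_cast (by omega)
      have a3 : (0 : ℝ) < j := by linarith
      calc _ = 1 / ((2 * r + 1 : ℕ) * (4 * (j : ℝ) ^ 2)) := by field_simp
        _ ≤ 1 / ((r + 1 : ℕ) * (4 * (M : ℝ) ^ 2)) := by gcongr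
        _ = _ := by field_simp
    · rw [Nat.card_Ico, show 2 * M - M = M by omega, nsmul_eq_mul]
      calc _ = (3 : ℝ) / 4 := by field_simp
        _ ≤ 1 := by norm_num
  · rw [sum_image hinj, sum_product]
    refine le_trans ?_ (card_nsmul_le_sum _ _ ((M / 8) / (32 * (M : ℝ) ^ 2)) fun j hj => ?_)
    · rw [Nat.card_Ico, show 2 * M - M = M by omega, nsmul_eq_mul]
      refine le_of_eq ?_
      field_simp; norm_num
    · refine (div_le_div_of_nonneg_right (H48.DS.logsum M) (by positivity)).trans ?_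
      rw [sum_div]
      refine sum_le_sum fun r hr => ?_
      rw [hd j hj r hr]
      have a1 : (j : ℝ) ≤ 2 * M := by exact_mod_cast (mem_Ico.1 hj).2.le
      obtain ⟨i, rfl⟩ : ∃ i, j = i + 1 := ⟨j - 1, by have := (mem_Ico.1 hj).1; omega⟩
      rw [Nat.totient_mul (Nat.Coprime.pow_left _ (by simp)),
        Nat.totient_prime_pow_succ Nat.prime_two]
      calc _ = ((2 * r + 1).totient : ℝ) / (((2 * r + 1 : ℕ) : ℝ) ^ 2 * (8 * (2 * M) ^ 2)) := by
            field_simp; ring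
        _ ≤ ((2 * r + 1).totient : ℝ) / (((2 * r + 1 : ℕ) : ℝ) ^ 2 * (8 * ((i + 1 : ℕ) : ℝ) ^ 2)) := by
            gcongr
        _ = _ := by push_cast; field_simp; ring

theorem result : ∀ᵐ α : ℝ, ∃ C : ℝ, 0 < C ∧
    ∃ᶠ N : ℕ in atTop, C * ((Real.log N) ^ 2 / N) ≤ disc α N := by
  have h := H48.DS.main del del_nonneg (fun n => (del_le n).trans
    (by rw [one_div]; exact Nat.cast_inv_le_one n))
    (squeeze_zero del_nonneg del_le tendsto_one_div_atTop_nhds_zero_nat) (1 / 256) (by norm_num)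
    (by norm_num) blocks
  filter_upwards [h] with α hα
  refine ⟨1 / 72, by norm_num, frequently_atTop.2 fun M => ?_⟩
  obtain ⟨n, ⟨m, _, _, hm⟩, hn⟩ := hα.exists_gt M
  obtain ⟨j, q, h1, h2, h3, h4, h5⟩ := del_spec n ((norm_nonneg _).trans_lt hm).ne'
  rw [← AddCircle.coe_sub, UnitAddCircle.norm_eq, h5] at hm
  have a1 : (1 : ℝ) ≤ j := by exact_mod_cast h1
  have a2 : (1 : ℝ) ≤ q := by exact_mod_cast h2
  have a3 : (0 : ℝ) < n := by rw [h4]; positivity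
  refine ⟨n * j ^ 2, hn.le.trans (Nat.le_mul_of_pos_right _ (by positivity)), le_trans ?_
    (empty α j q (n * j ^ 2) h2 (m + n * round (α - m / n)) (α - m / n - round (α - m / n))
      (by rw [← h4]; push_cast; field_simp; ring) ?_)⟩
  · rw [← h4]
    have b1 : Real.log n ≤ 4 * j := by
      have : (n : ℝ) ≤ 2 ^ (3 * j + 1) := by
        have : n ≤ 2 ^ (3 * j + 1) := by
          rw [h4, show 3 * j + 1 = j + (2 * j + 1) by ring, pow_add, pow_succ, pow_mul]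
          exact Nat.mul_le_mul_left _ (by norm_num; omega)
        exact_mod_cast this
      refine (Real.log_le_log a3 this).trans ?_
      rw [Real.log_pow]
      have := Real.log_two_lt_d9
      push_cast; nlinarith
    have b2 : Real.log j ≤ j := (Real.log_le_sub_one_of_pos (by linarith)).trans (by linarith)
    have b3 : Real.log ((n * j ^ 2 : ℕ) : ℝ) ≤ 6 * j := by
      push_cast
      rw [Real.log_mul a3.ne' (by positivity), Real.log_pow]
      push_cast; linarith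
    have b4 : 0 ≤ Real.log ((n * j ^ 2 : ℕ) : ℝ) := Real.log_natCast_nonneg _
    calc _ ≤ 1 / 72 * ((6 * (j : ℝ)) ^ 2 / ((n * j ^ 2 : ℕ) : ℝ)) := by gcongr
      _ = _ := by push_cast; field_simp; ring
  · rw [lt_div_iff₀ (by positivity)] at hm
    push_cast
    linarith

end Pool.Agent.Results.MP_4e48d5_nt.Proof
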